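import Mathlib
import Pool.Agent.R618.QP.Main
import Pool.Agent.R618.QP.EX
import Pool.Agent.R618.QP.UN
import Pool.Agent.R618.QP.OM
import Pool.Agent.R618.QP.SUM
import Pool.Agent.R618.QP.S1G
import Pool.Agent.R618.QP.HN
import Pool.Agent.R618.QP.RF
import Pool.Agent.R618.QP.PHI
import Pool.Agent.R618.QP.FP
import Pool.Agent.R618.QP.SQ

set_option autoImplicit false

/-!
# MP_9fe52c_nt, Q1: the q-supercongruence modulo `[p]^5 Φ_{p^2}(q)` holds for every prime `p`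
-/

namespace Pool.Agent.Results.MP_9fe52c_nt.QSupercongruence

open Finset Polynomial

/-- The variable `q` of the field `ℚ(q)`. -/
noncomputable def q : RatFunc ℚ := RatFunc.X

/-- The `q`-integer `[m] = (1 - q^m)/(1 - q)`. -/
noncomputable def qnum (m : ℕ) : RatFunc ℚ := (1 - q ^ m) / (1 - q)

/-- The `q`-shifted factorial `(a;b)_j = (1-a)(1-ab)⋯(1-ab^(j-1))`. -/
noncomputable def qpoch (a b : RatFunc ℚ) (j : ℕ) : RatFunc ℚ := ∏ i ∈ range j, (1 - a * b ^ i)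

/-- The sum `S_p(q)`. -/
noncomputable def S (p : ℕ) : RatFunc ℚ := ∑ j ∈ range p, qnum (2 * (p + 1) * j + 1) *
  (qpoch q (q ^ (p + 1)) j / qpoch (q ^ (p + 1)) (q ^ (p + 1)) j) ^ (2 * (p + 1)) *
    q ^ ((p ^ 2 - 1) * j)

/-- The constant `c_p = p(p-1)(p+1)^2(2p+1)/72`. -/
def c (p : ℕ) : ℚ := (p : ℚ) * (p - 1) * (p + 1) ^ 2 * (2 * p + 1) / 72

/-- `A ≡ B (mod f)`: `A - B = P/Q` with polynomials `P`, `Q`, `Q` coprime to `f` and `f ∣ P`. -/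
def CongMod (f : ℚ[X]) (A B : RatFunc ℚ) : Prop :=
  ∃ P Q : ℚ[X], Q ≠ 0 ∧ IsCoprime Q f ∧ f ∣ P ∧
    A - B = algebraMap ℚ[X] (RatFunc ℚ) P / algebraMap ℚ[X] (RatFunc ℚ) Q

section aux

open Pool.Agent.R439 Pool.Agent.R618.SC Pool.Agent.R618.QP

theorem S_eq (p : ℕ) : S p = FF p / (1 - q) := by
  rw [S, FF, sum_div]
  refine sum_congr rfl fun j _ => ?_
  rw [qnum]
  have h : ∀ a b : RatFunc ℚ, qpoch a b j = poch a b j := fun a b => rfl
  have hq : q = Pool.Agent.R439.q := rfl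
  rw [h, h, hq]
  ring

theorem cyc_eq {p : ℕ} (hp : p.Prime) : algebraMap ℚ[X] (RatFunc ℚ) (cyclotomic (p ^ 2) ℚ) =
    (1 - q ^ (p ^ 2)) / (1 - q ^ p) := by
  have h1 := cyclotomic_prime_pow_eq_geom_sum (R := ℚ) (n := 1) hp
  rw [show (1 + 1) = 2 from rfl, pow_one] at h1
  rw [h1, map_sum]
  have h2 : (1 - q ^ p : RatFunc ℚ) ≠ 0 := one_sub_pow_ne hp.ne_zero
  rw [eq_div_iff h2]
  have h3 := geom_sum_mul (q ^ p : RatFunc ℚ) p
  rw [← pow_mul, ← pow_two] at h3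
  have h4 : ∀ i, algebraMap ℚ[X] (RatFunc ℚ) ((X ^ p) ^ i) = (q ^ p) ^ i := by
    intro i; rw [map_pow, map_pow, RatFunc.algebraMap_X]; rfl
  simp only [h4]
  linear_combination (-1 : RatFunc ℚ) * h3

theorem final (h1 : T_EX) (h4 : T_PHI) (h5 : T_FP) (h6 : T_SQ) {p : ℕ} (hp : p.Prime) :
    CongMod (cyclotomic (p ^ 2) ℚ * (∑ i ∈ range p, X ^ i) ^ 5) (S p)
      (-((c p : RatFunc ℚ) * q * (1 - q) ^ 2 * qnum p ^ 4 *
        algebraMap ℚ[X] (RatFunc ℚ) (cyclotomic (p ^ 2) ℚ))) := by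
  have hp1 := hp.one_lt
  have : Fact p.Prime := ⟨hp⟩
  have : NeZero p := ⟨hp.ne_zero⟩
  have : NeZero (p ^ 2) := ⟨pow_ne_zero _ hp.ne_zero⟩
  have hm := main (n := p) hp1 h1 h4 h5
  have hs := h6 p hp1
  have hc : (c p : RatFunc ℚ) = mcc p := by
    rw [c, mcc]; push_cast; rfl
  set x := S p - (-((c p : RatFunc ℚ) * q * (1 - q) ^ 2 * qnum p ^ 4 *
        algebraMap ℚ[X] (RatFunc ℚ) (cyclotomic (p ^ 2) ℚ))) with hx
  have hx1 : x = FF p / (1 - q) + mcc p * q * (1 - q) ^ 2 * ((1 - q ^ p) / (1 - q)) ^ 4 *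
      ((1 - q ^ (p ^ 2)) / (1 - q ^ p)) := by
    rw [hx, S_eq, cyc_eq hp, hc, qnum]; ring
  have a1 : I p 5 x := by rw [hx1]; exact hm
  have a2 : I (p ^ 2) 1 x := by
    rw [hx1]
    have hp2 : 1 < p ^ 2 := Nat.one_lt_pow (by norm_num) hp1
    have hu := main_U1 (n := p ^ 2) hp2
    have hup : U (p ^ 2) (1 - q ^ p : RatFunc ℚ) := by
      have := U_one_sub (n := p ^ 2) (e := (p : ℤ)) (by
        intro h
        have h1 : p ^ 2 ∣ p := by exact_mod_cast h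
        have h2 := Nat.le_of_dvd hp.pos h1
        nlinarith)
      rwa [zpow_natCast] at this
    refine I.add ?_ ?_
    · rw [div_eq_mul_inv]
      exact hs.mulR hu.2.2
    · have hw : (1 - q ^ (p ^ 2) : RatFunc ℚ) = w (p ^ 2) := rfl
      rw [hw, div_eq_mul_inv (w (p ^ 2))]
      refine I.mulL ?_ (I_w.mulR hup.2.2)
      have hcO : mcc p ∈ O (p ^ 2) := by rw [← hc]; exact rat_mem _
      have hqO : q ∈ O (p ^ 2) := q_mem
      refine mul_mem (mul_mem (mul_mem hcO hqO) (pow_mem hu.2.1 _)) (pow_mem ?_ _)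
      rw [div_eq_mul_inv]
      exact mul_mem hup.2.1 hu.2.2
  have b1 := num_of_I a1
  have b2 := num_of_I a2
  rw [pow_one] at b2
  rw [cyclotomic_prime ℚ p] at b1
  have hne : p ^ 2 ≠ p := by
    intro h; nlinarith
  have hco : IsCoprime (cyclotomic (p ^ 2) ℚ) ((∑ i ∈ range p, (X : ℚ[X]) ^ i) ^ 5) := by
    rw [← cyclotomic_prime ℚ p]
    exact (cyclotomic.isCoprime_rat hne).pow_right
  have b3 := hco.mul_dvd b2 b1
  refine ⟨x.num, x.denom, x.denom_ne_zero, ?_, b3, ?_⟩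
  · exact ((RatFunc.isCoprime_num_denom x).symm).of_isCoprime_of_dvd_right b3
  · exact (RatFunc.num_div_denom x).symm

end aux

/-- For every prime `p`,
`S_p(q) ≡ -c_p q (1-q)^2 [p]^4 Φ_(p^2)(q)  (mod Φ_(p^2)(q) [p]^5)`; here
`[p] = 1 + q + ⋯ + q^(p-1)`. -/
theorem result : ∀ p : ℕ, p.Prime →
    CongMod (cyclotomic (p ^ 2) ℚ * (∑ i ∈ range p, X ^ i) ^ 5) (S p)
      (-((c p : RatFunc ℚ) * q * (1 - q) ^ 2 * qnum p ^ 4 *
        algebraMap ℚ[X] (RatFunc ℚ) (cyclotomic (p ^ 2) ℚ))) := by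
  intro p hp
  have h1 := R618.QP.tex
  have h2 := R618.QP.tun h1
  have h3 := R618.QP.tom h1 h2
  have h4 := R618.QP.tphi h1 h2 h3 (R618.QP.tsum h2) (R618.QP.ts1g h1 h2) (R618.QP.thn h1 h2)
    (R618.QP.trf h1 h2)
  exact final h1 h4 (R618.QP.tfp h1 h2 h3) R618.QP.tsq hp

end Pool.Agent.Results.MP_9fe52c_nt.QSupercongruence
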